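import Pool.Agent.H62.PR.Stm

/-!
# Part RE of project PR (helper62): the real place
-/

set_option autoImplicit false
set_option linter.all false

open Polynomial

namespace Pool.Agent.H6.PR

open Pool.Agent.H62.PR
open Pool.Agent.N874.PP (Rt)
open Pool.Agent.N874.PM (PLoc)
open Pool.Agent.N922.PQ

/-- The real cubic `X ^ 3 + A X + B` has a real root. -/
theorem exists_root (A B : ℝ) (hA : 0 < A) : ∃ r : ℝ, r ^ 3 + A * r + B = 0 := by
  have hc : Continuous fun x : ℝ => x ^ 3 + A * x + B := by fun_prop
  have h1 : (fun x : ℝ => x ^ 3 + A * x + B) (-(|B| / A + 0)) ≤ 0 := by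
    have h3 : 0 ≤ |B| / A := by positivity
    have : A * (|B| / A) = |B| := by field_simp
    have h4 := neg_abs_le B
    have h5 := le_abs_self B
    have h6 : 0 ≤ (|B| / A) ^ 3 := by positivity
    simp only [add_zero]
    nlinarith
  have h2 : 0 ≤ (fun x : ℝ => x ^ 3 + A * x + B) (|B| / A) := by
    have h3 : 0 ≤ |B| / A := by positivity
    have : A * (|B| / A) = |B| := by field_simp
    have h4 := neg_abs_le B
    have h5 := le_abs_self B
    have h6 : 0 ≤ (|B| / A) ^ 3 := by positivity
    simp only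
    nlinarith
  obtain ⟨r, hr⟩ := mem_range_of_exists_le_of_exists_ge hc ⟨_, h1⟩ ⟨_, h2⟩
  exact ⟨r, hr⟩

/-- If `h` is positive at the real zero then it is a square modulo the cubic polynomial. -/
theorem sq_mod (A B r : ℝ) (hA : 0 < A) (hr : r ^ 3 + A * r + B = 0) (h : ℝ[X]) (hh : 0 < h.eval r) :
    ∃ g : ℝ[X], X ^ 3 + C A * X + C B ∣ h - g ^ 2 := by
  -- the complex zero
  set u : ℝ := -r / 2 with hu
  set v : ℝ := Real.sqrt (3 * r ^ 2 / 4 + A) with hv
  have hv2 : v ^ 2 = 3 * r ^ 2 / 4 + A := by
    rw [hv, Real.sq_sqrt]; positivity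
  have hv0 : 0 < v := by
    rw [hv]; apply Real.sqrt_pos.mpr; positivity
  set c : ℂ := ⟨u, v⟩ with hc
  obtain ⟨w, hw⟩ := IsAlgClosed.exists_pow_nat_eq (aeval c h) (n := 2) (by norm_num)
  -- the linear polynomial
  set β : ℝ := w.im / v
  set α : ℝ := w.re - β * u
  set q : ℝ[X] := X ^ 2 + C r * X + C (r ^ 2 + A) with hq
  have hqr : q.eval r = 3 * r ^ 2 + A := by
    simp only [hq, eval_add, eval_mul, eval_pow, eval_X, eval_C]; ring
  have hqr0 : q.eval r ≠ 0 := by rw [hqr]; positivity
  have hqc : aeval c q = 0 := by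
    simp only [hq, map_add, map_mul, map_pow, aeval_X, aeval_C]
    apply Complex.ext
    · simp [hc, pow_two]
      nlinarith
    · simp [hc, pow_two]
      rw [hu]; ring
  set γ : ℝ := (Real.sqrt (h.eval r) - (α + β * r)) / q.eval r
  set g : ℝ[X] := C α + C β * X + C γ * q with hg
  have hgr : g.eval r = Real.sqrt (h.eval r) := by
    simp only [hg, eval_add, eval_mul, eval_X, eval_C]
    rw [div_mul_cancel₀ _ hqr0]; ring
  have hgc : aeval c g = w := by
    simp only [hg, map_add, map_mul, aeval_X, aeval_C, hqc]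
    apply Complex.ext
    · simp [hc, α]
    · simp [hc, β]
      field_simp
  refine ⟨g, ?_⟩
  have hfac : X ^ 3 + C A * X + C B = (X - C r) * q := by
    have : B = -(r ^ 3 + A * r) := by linarith
    rw [this, hq]
    simp only [C_neg, C_add, C_mul, C_pow]
    ring
  rw [hfac]
  apply IsCoprime.mul_dvd
  · rw [isCoprime_comm]
    have : q = (X - C r) * (X + C (2 * r)) + C (q.eval r) := by
      rw [hqr, hq]
      simp only [C_add, C_mul, C_pow, map_ofNat]
      ring
    refine ⟨C (q.eval r)⁻¹, - C (q.eval r)⁻¹ * (X + C (2 * r)), ?_⟩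
    have e : C (q.eval r)⁻¹ * C (q.eval r) = 1 := by
      rw [← C_mul, inv_mul_cancel₀ hqr0, C_1]
    calc _ = C (q.eval r)⁻¹ * (q - (X - C r) * (X + C (2 * r))) := by ring
      _ = C (q.eval r)⁻¹ * C (q.eval r) := by
        congr 1
        nth_rewrite 1 [this]; ring
      _ = 1 := e
  · rw [dvd_iff_isRoot, IsRoot.def, eval_sub, eval_pow, hgr, Real.sq_sqrt hh.le, sub_self]
  · -- over the complex numbers
    have h0 : aeval c (h - g ^ 2) = 0 := by
      rw [map_sub, map_pow, hgc, hw, sub_self]
    -- divide with remainder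
    have hqm : q.Monic := by rw [hq]; monicity!
    have hqd : q.natDegree = 2 := by rw [hq]; compute_degree!
    rw [← modByMonic_eq_zero_iff_dvd hqm]
    set p := (h - g ^ 2) %ₘ q with hp
    have hpc : aeval c p = 0 := by
      have := modByMonic_add_div (h - g ^ 2) q
      have h2 := congrArg (aeval c) this
      rw [map_add, map_mul, hqc, zero_mul, add_zero, h0] at h2
      exact h2
    have hpd : p.natDegree < 2 := by
      rw [← hqd]
      exact natDegree_modByMonic_lt _ hqm (by rw [Ne, ← hqm.natDegree_eq_zero]; omega)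
    have hpe : p = C (p.coeff 1) * X + C (p.coeff 0) := by
      exact eq_X_add_C_of_natDegree_le_one (by omega)
    rw [hpe] at hpc
    simp only [map_add, map_mul, aeval_X, aeval_C] at hpc
    have him := congrArg Complex.im hpc
    have hre := congrArg Complex.re hpc
    simp [hc] at him hre
    have h1 : p.coeff 1 = 0 := by
      rcases him with h | h
      · exact h
      · exact absurd h hv0.ne'
    rw [h1] at hre
    rw [hpe, h1]
    have : p.coeff 0 = 0 := by simpa using hre
    rw [this]; simp

/-- A cubic real polynomial with positive linear coefficient: its complex zeros. -/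
theorem roots_le (A B r : ℝ) (hA : 0 < A) (hr : r ^ 3 + A * r + B = 0) :
    ∃ c : ℂ, ∀ z : ℂ, z ^ 3 + A * z + B = 0 → z = r ∨ z = c ∨ z = (starRingEnd ℂ) c := by
  set v : ℝ := Real.sqrt (3 * r ^ 2 / 4 + A) with hv
  have hv2 : v ^ 2 = 3 * r ^ 2 / 4 + A := by
    rw [hv, Real.sq_sqrt]; positivity
  have hv2' : (v : ℂ) ^ 2 = 3 * r ^ 2 / 4 + A := by exact_mod_cast hv2
  have hr' : (B : ℂ) = -((r : ℂ) ^ 3 + A * r) := by
    have : B = -(r ^ 3 + A * r) := by linarith
    rw [this]; push_cast; ring
  refine ⟨-r / 2 + v * Complex.I, fun z hz => ?_⟩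
  have e : (z - r) * ((z - (-r / 2 + v * Complex.I)) * (z - (-r / 2 - v * Complex.I))) = 0 := by
    have : (z - r) * ((z - (-r / 2 + v * Complex.I)) * (z - (-r / 2 - v * Complex.I))) =
        (z - r) * ((z + r / 2) ^ 2 - v ^ 2 * Complex.I ^ 2) := by ring
    rw [this, hv2', Complex.I_sq, ← hz, hr']
    ring
  rcases mul_eq_zero.mp e with h | h
  · left; exact sub_eq_zero.mp h
  · rcases mul_eq_zero.mp h with h | h
    · right; left; exact sub_eq_zero.mp h
    · right; right
      rw [sub_eq_zero.mp h]
      simp only [map_add, map_mul, map_div₀, map_neg, Complex.conj_ofReal, Complex.conj_I, map_ofNat]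
      ring

theorem re : S_RE := by
  intro L _ _ A B hA t h ht hfin h0 hsq
  -- the real zero
  have hA' : 0 < (A : ℝ) := by exact_mod_cast hA
  obtain ⟨r, hr⟩ := exists_root (A : ℝ) (B : ℝ) hA'
  have ht' : t ^ 3 + algebraMap ℚ L A * t + algebraMap ℚ L B = 0 := ht
  suffices hpos : 0 < (h.map (algebraMap ℚ ℝ)).eval r by
    left
    have := sq_mod (A : ℝ) (B : ℝ) r hA' hr (h.map (algebraMap ℚ ℝ)) hpos
    simpa using this
  obtain ⟨n, hn⟩ := hsq
  have hN0 : Algebra.norm ℚ (aeval t h) ≠ 0 := by
    rw [Ne, Algebra.norm_eq_zero_iff]; exact h0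
  have hNpos : 0 < Algebra.norm ℚ (aeval t h) := by
    rw [hn] at hN0 ⊢
    exact lt_of_le_of_ne (mul_self_nonneg n) (Ne.symm hN0)
  by_cases htq : ∃ q : ℚ, algebraMap ℚ L q = t
  · obtain ⟨q, rfl⟩ := htq
    have hq : q ^ 3 + A * q + B = 0 := by
      have : algebraMap ℚ L (q ^ 3 + A * q + B) = algebraMap ℚ L 0 := by
        rw [map_add, map_add, map_mul, map_pow, map_zero]; exact ht'
      exact (algebraMap ℚ L).injective this
    have hrq : r = q := by
      have hqr : (q : ℝ) ^ 3 + A * q + B = 0 := by exact_mod_cast hq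
      have e : (r - q) * (r ^ 2 + r * q + q ^ 2 + A) = 0 := by linear_combination hr - hqr
      rcases mul_eq_zero.mp e with h | h
      · linarith
      · nlinarith [sq_nonneg (r + q / 2), sq_nonneg (q : ℝ)]
    rw [hrq]
    have e1 : aeval (algebraMap ℚ L q) h = algebraMap ℚ L (h.eval q) := by
      rw [aeval_algebraMap_apply]; rfl
    rw [e1, Algebra.norm_algebraMap, hfin] at hNpos
    have e2 : (h.map (algebraMap ℚ ℝ)).eval (q : ℝ) = ((h.eval q : ℚ) : ℝ) := by
      have := eval_map_algebraMap (R := ℚ) (B := ℝ) h (q : ℝ)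
      rw [this]
      have := aeval_algebraMap_apply ℝ (q : ℚ) h
      simpa using this
    rw [e2]
    have : 0 < h.eval q := by
      by_contra hcon
      push Not at hcon
      have := Odd.pow_nonpos (n := 3) (by decide) hcon
      linarith
    exact_mod_cast this
  · -- the element `t` generates `L`
    set f : ℚ[X] := X ^ 3 + C A * X + C B with hf
    have hfm : f.Monic := by rw [hf]; monicity!
    have hfd : f.natDegree = 3 := by rw [hf]; compute_degree!
    have hft : aeval t f = 0 := by
      rw [hf]; simp only [map_add, map_mul, map_pow, aeval_X, aeval_C]; exact ht'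
    have hint : IsIntegral ℚ t := ⟨f, hfm, hft⟩
    have hmd : (minpoly ℚ t).natDegree = 3 := by
      have h1 : (minpoly ℚ t).natDegree ∣ 3 := by
        rw [← hfin]; exact minpoly.degree_dvd hint
      rcases (Nat.dvd_prime Nat.prime_three).mp h1 with h2 | h2
      · exfalso
        rw [minpoly.natDegree_eq_one_iff] at h2
        obtain ⟨q, hq⟩ := h2
        exact htq ⟨q, hq⟩
      · exact h2
    have htop : IntermediateField.adjoin ℚ {t} = ⊤ := by
      rw [Field.primitive_element_iff_minpoly_natDegree_eq, hmd, hfin]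
    obtain ⟨c, hc⟩ := roots_le (A : ℝ) (B : ℝ) r hA' hr
    have hroot : ∀ φ : L →ₐ[ℚ] ℂ, φ t = r ∨ φ t = c ∨ φ t = (starRingEnd ℂ) c := by
      intro φ
      apply hc
      have := congrArg φ ht'
      rw [map_add, map_add, map_mul, map_pow, AlgHom.commutes, AlgHom.commutes, map_zero] at this
      simpa using this
    have hinj : Function.Injective (fun φ : L →ₐ[ℚ] ℂ => φ t) := by
      intro φ ψ hφψ
      have hadj : Algebra.adjoin ℚ {t} = ⊤ := by
        have := IntermediateField.adjoin_simple_toSubalgebra_of_isAlgebraic (F := ℚ) (α := t)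
          hint.isAlgebraic
        rw [← this, htop]; rfl
      apply AlgHom.ext_of_adjoin_eq_top hadj
      intro x hx
      rw [Set.mem_singleton_iff] at hx
      subst hx
      exact hφψ
    have hcard : Fintype.card (L →ₐ[ℚ] ℂ) = 3 := by
      rw [AlgHom.card, hfin]
    classical
    have himg : Finset.univ.image (fun φ : L →ₐ[ℚ] ℂ => φ t) = {(r : ℂ), c, (starRingEnd ℂ) c} := by
      apply Finset.eq_of_subset_of_card_le
      · intro z hz
        obtain ⟨φ, -, rfl⟩ := Finset.mem_image.mp hz
        rcases hroot φ with h | h | h <;> simp [h]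
      · rw [Finset.card_image_of_injective _ hinj, Finset.card_univ, hcard]
        exact Finset.card_le_three
    have hne : ((r : ℂ) ≠ c ∧ (r : ℂ) ≠ (starRingEnd ℂ) c) ∧ c ≠ (starRingEnd ℂ) c := by
      have h3 : ({(r : ℂ), c, (starRingEnd ℂ) c} : Finset ℂ).card = 3 := by
        rw [← himg, Finset.card_image_of_injective _ hinj, Finset.card_univ, hcard]
      refine ⟨⟨?_, ?_⟩, ?_⟩
      · intro he
        rw [← he] at h3
        have : ({(r : ℂ), (r : ℂ), (starRingEnd ℂ) (r : ℂ)} : Finset ℂ).card ≤ 2 := by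
          rw [Finset.insert_eq_of_mem (by simp)]; exact Finset.card_le_two
        omega
      · intro he
        have : ({(r : ℂ), c, (starRingEnd ℂ) c} : Finset ℂ).card ≤ 2 := by
          rw [Finset.insert_eq_of_mem (by rw [he]; simp)]; exact Finset.card_le_two
        omega
      · intro he
        have : ({(r : ℂ), c, (starRingEnd ℂ) c} : Finset ℂ).card ≤ 2 := by
          rw [← he]; simp only [Finset.mem_singleton, Finset.insert_eq_of_mem]; exact Finset.card_le_two
        omega
    have hprod := Algebra.norm_eq_prod_embeddings ℚ ℂ (aeval t h)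
    have e1 : ∏ φ : L →ₐ[ℚ] ℂ, φ (aeval t h) = ∏ z ∈ ({(r : ℂ), c, (starRingEnd ℂ) c} : Finset ℂ), aeval z h := by
      rw [← himg, Finset.prod_image (fun x _ y _ hxy => hinj hxy)]
      apply Finset.prod_congr rfl
      intro φ _
      rw [← Polynomial.aeval_algHom_apply]
    rw [e1, Finset.prod_insert (by simp [hne.1.1, hne.1.2]), Finset.prod_insert (by simp [hne.2]),
      Finset.prod_singleton] at hprod
    have e2 : aeval ((starRingEnd ℂ) c) h = (starRingEnd ℂ) (aeval c h) := by
      have : (starRingEnd ℂ) c = (Complex.conjAe.restrictScalars ℚ) c := rfl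
      rw [this, Polynomial.aeval_algHom_apply]; rfl
    rw [e2, Complex.mul_conj] at hprod
    have e3 : aeval (r : ℂ) h = (((h.map (algebraMap ℚ ℝ)).eval r : ℝ) : ℂ) := by
      rw [eval_map_algebraMap]
      have := aeval_algebraMap_apply ℂ (r : ℝ) h
      simpa using this
    rw [e3] at hprod
    have e4 : ((Algebra.norm ℚ (aeval t h) : ℚ) : ℝ) =
        (h.map (algebraMap ℚ ℝ)).eval r * Complex.normSq (aeval c h) := by
      have : (((Algebra.norm ℚ (aeval t h) : ℚ) : ℝ) : ℂ) =
        (((h.map (algebraMap ℚ ℝ)).eval r * Complex.normSq (aeval c h) : ℝ) : ℂ) := by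
        rw [Complex.ofReal_mul, ← hprod]; simp
      exact_mod_cast this
    have e5 : 0 < (h.map (algebraMap ℚ ℝ)).eval r * Complex.normSq (aeval c h) := by
      rw [← e4]; exact_mod_cast hNpos
    exact pos_of_mul_pos_left e5 (Complex.normSq_nonneg _)

end Pool.Agent.H6.PR
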