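import Pool.Agent.H62.PR.Stm

/-!
# Part T2 of project PR (helper62): the prime 2
-/

set_option autoImplicit false
set_option linter.all false

open Polynomial

namespace Pool.Agent.H6.PR

open Pool.Agent.H62.PR
open Pool.Agent.N874.PM (PLoc)
open Pool.Agent.N922.PQ

/-- Integers congruent to 1 modulo 8 are squares in `ℚ_2`. -/
theorem sq_two {D : ℤ} (hD : D % 8 = 1) : ∃ s : ℚ_[2], s ^ 2 = (D : ℚ_[2]) := by
  haveI : Fact (Nat.Prime 2) := ⟨Nat.prime_two⟩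
  let F : ℤ_[2][X] := X ^ 2 - C (D : ℤ_[2])
  have hF : F.eval 1 = 1 - (D : ℤ_[2]) := by simp [F]
  have hF' : (derivative F).eval 1 = 2 := by simp [F]; norm_num
  have h8 : (8 : ℤ) ∣ 1 - D := by omega
  obtain ⟨k, hk⟩ := h8
  have e1 : (1 : ℤ_[2]) - (D : ℤ_[2]) = (2 : ℤ_[2]) ^ 3 * (k : ℤ_[2]) := by
    have := congrArg (fun z : ℤ => (z : ℤ_[2])) hk
    push_cast at this
    rw [this]; ring
  have n2 : ‖(2 : ℤ_[2])‖ = 2⁻¹ := by
    have := PadicInt.norm_p (p := 2)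
    simpa using this
  have n1 : ‖(1 : ℤ_[2]) - (D : ℤ_[2])‖ ≤ 8⁻¹ := by
    rw [e1, norm_mul]
    have : ‖(2 : ℤ_[2]) ^ 3‖ = 8⁻¹ := by
      rw [norm_pow, n2]; norm_num
    rw [this]
    have := PadicInt.norm_le_one (k : ℤ_[2])
    nlinarith
  have key : ‖F.aeval (1 : ℤ_[2])‖ < ‖(derivative F).aeval (1 : ℤ_[2])‖ ^ 2 := by
    simp only [coe_aeval_eq_eval] at *
    rw [hF, hF', n2]
    refine lt_of_le_of_lt n1 ?_
    norm_num
  obtain ⟨z, hz, -⟩ := hensels_lemma key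
  refine ⟨(z : ℚ_[2]), ?_⟩
  rw [coe_aeval_eq_eval] at hz
  simp only [F, eval_sub, eval_pow, eval_X, eval_C] at hz
  have : z ^ 2 = (D : ℤ_[2]) := sub_eq_zero.mp hz
  have h2 := congrArg (fun w : ℤ_[2] => (w : ℚ_[2])) this
  simpa using h2

theorem t2 : S_T2 := by
  intro a b D hD0 hD h hPL
  obtain ⟨s, hs⟩ := sq_two hD
  have hDz : ((D : ℤ) : ℚ_[2]) ≠ 0 := by
    exact_mod_cast hD0.ne'
  set d : ℚ_[2] := (D : ℚ_[2]) with hd
  have hs0 : s ≠ 0 := by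
    rintro rfl
    apply hDz
    rw [← hs]; ring
  have hcomp : ((h.comp (C (D : ℚ) * X)).map (algebraMap ℚ ℚ_[2])).comp (C d⁻¹ * X) =
      h.map (algebraMap ℚ ℚ_[2]) := by
    rw [Polynomial.map_comp, Polynomial.comp_assoc]
    have : ((C (D : ℚ) * X : ℚ[X]).map (algebraMap ℚ ℚ_[2])).comp (C d⁻¹ * X) = X := by
      simp only [Polynomial.map_mul, map_C, map_X, mul_comp, C_comp, X_comp]
      rw [← mul_assoc, ← C_mul]
      have : (algebraMap ℚ ℚ_[2]) (D : ℚ) * d⁻¹ = 1 := by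
        rw [map_intCast]
        exact mul_inv_cancel₀ hDz
      rw [this]; simp
    rw [this, comp_X]
  have hcub : C (d ^ 3) * (X ^ 3 + C (a : ℚ_[2]) * X + C (b : ℚ_[2])).comp (C d⁻¹ * X) =
      X ^ 3 + C (algebraMap ℚ ℚ_[2] ((a * D ^ 2 : ℤ) : ℚ)) * X +
        C (algebraMap ℚ ℚ_[2] ((b * D ^ 3 : ℤ) : ℚ)) := by
    have ea : algebraMap ℚ ℚ_[2] ((a * D ^ 2 : ℤ) : ℚ) = a * d ^ 2 := by
      rw [map_intCast]; push_cast; rfl
    have eb : algebraMap ℚ ℚ_[2] ((b * D ^ 3 : ℤ) : ℚ) = b * d ^ 3 := by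
      rw [map_intCast]; push_cast; rfl
    rw [ea, eb]
    simp only [add_comp, mul_comp, pow_comp, C_comp, X_comp]
    have e : (C (d ^ 3) * ((C d⁻¹ * X) ^ 3 + C (a : ℚ_[2]) * (C d⁻¹ * X) + C (b : ℚ_[2])) : ℚ_[2][X]) =
       C (d ^ 3 * d⁻¹ ^ 3) * X ^ 3 + C (d ^ 3 * d⁻¹ * a) * X + C (d ^ 3 * b) := by
      simp only [C_mul, C_pow]; ring
    rw [e]
    have e1 : d ^ 3 * d⁻¹ ^ 3 = 1 := by field_simp
    have e2 : d ^ 3 * d⁻¹ * a = a * d ^ 2 := by field_simp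
    have e3 : d ^ 3 * (b : ℚ_[2]) = b * d ^ 3 := mul_comm _ _
    rw [e1, e2, e3]
    simp only [C_1, one_mul]
  have hunit : IsUnit (C (d ^ 3) : ℚ_[2][X]) := by
    rw [isUnit_C]
    exact (pow_ne_zero 3 hDz).isUnit
  have hdvd : ∀ p q : ℚ_[2][X], X ^ 3 + C (a : ℚ_[2]) * X + C (b : ℚ_[2]) ∣ p →
      p.comp (C d⁻¹ * X) = q →
      X ^ 3 + C (algebraMap ℚ ℚ_[2] ((a * D ^ 2 : ℤ) : ℚ)) * X +
        C (algebraMap ℚ ℚ_[2] ((b * D ^ 3 : ℤ) : ℚ)) ∣ q := by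
    rintro p q ⟨r, rfl⟩ rfl
    rw [← hcub, mul_comp]
    obtain ⟨u, hu⟩ := hunit
    rw [← hu]
    rw [Units.mul_left_dvd]
    exact Dvd.intro _ rfl
  rcases hPL with ⟨g, hg⟩ | ⟨x, y, hy, hxy, g, hg⟩
  · left
    refine ⟨g.comp (C d⁻¹ * X), hdvd _ _ hg ?_⟩
    rw [sub_comp, hcomp, pow_comp]
  · right
    refine ⟨d * x, d * s * y, mul_ne_zero (mul_ne_zero hDz hs0) hy, ?_, C s * g.comp (C d⁻¹ * X), ?_⟩
    · simp only [map_intCast]
      push_cast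
      have : (d * s * y) ^ 2 = d ^ 2 * s ^ 2 * y ^ 2 := by ring
      rw [this, hs, hxy]
      simp only [hd]
      ring
    · have h1 := hdvd _ _ hg rfl
      have h2 := h1.mul_left (C d)
      have e : C d * ((C x - X) * map (algebraMap ℚ ℚ_[2]) (h.comp (C (D : ℚ) * X)) - g ^ 2).comp (C d⁻¹ * X) =
          (C (d * x) - X) * map (algebraMap ℚ ℚ_[2]) h - (C s * g.comp (C d⁻¹ * X)) ^ 2 := by
        rw [sub_comp, mul_comp, hcomp, pow_comp, sub_comp, C_comp, X_comp, mul_sub, ← mul_assoc]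
        congr 1
        · congr 1
          rw [mul_sub, ← C_mul, ← mul_assoc, ← C_mul, mul_inv_cancel₀ hDz]
          simp
        · rw [mul_pow, ← C_pow, hs]
      rw [e] at h2
      exact h2

end Pool.Agent.H6.PR
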