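import Pool.Agent.H62.PR.Loc0
import Pool.Graph.R_pool_sql_team_seeded_63374d34.N849.PQ.Int

/-!
# Part EXG of project PR (helper62)
-/

set_option autoImplicit false
set_option linter.all false

open IsDedekindDomain NumberField WithZero Polynomial Matrix
open scoped Classical

namespace Pool.Agent.H6.PR

open Pool.Agent.H62.PR
open Pool.Agent.N874.PP (Tup chA chB gq tau Two Ev Sq1 U0)
open Pool.Agent.N922.PQ
open Pool.Agent.N301.PQ (co_crd crd_inj crd_add crd_smul crd_C crd_theta mapO exO theta_ex mem_P1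
  mem_P2 mem_both poly_mem int_iff)

/-- Modulo a prime `Q` for which `- a` is not a square, `D` or `- a D'` is a square. -/
theorem sq_or {Q a D : ℤ} (hQ : IsPr Q) (hns : ∀ z : ℤ, ¬ Q ∣ z ^ 2 + a) (hD : ¬ Q ∣ D) :
    (∃ z : ℤ, Q ∣ z ^ 2 - D) ∨ ∃ z : ℤ, Q ∣ -a * z ^ 2 - D := by
  obtain ⟨hQ0, hQp⟩ := hQ
  obtain ⟨q, rfl⟩ := Int.eq_ofNat_of_zero_le hQ0.le
  haveI : Fact q.Prime := ⟨by exact_mod_cast Int.prime_iff_natAbs_prime.1 hQp⟩
  by_cases h1 : IsSquare (D : ZMod q)
  · left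
    obtain ⟨w, hw⟩ := h1
    refine ⟨w.val, ?_⟩
    rw [← ZMod.intCast_zmod_eq_zero_iff_dvd]
    push_cast
    rw [ZMod.natCast_val, ZMod.cast_id, hw]
    ring
  · right
    have ha0 : ((-a : ℤ) : ZMod q) ≠ 0 := by
      intro h0
      rw [ZMod.intCast_zmod_eq_zero_iff_dvd] at h0
      apply hns 0
      simpa using h0
    have ha : ¬ IsSquare ((-a : ℤ) : ZMod q) := by
      rintro ⟨w, hw⟩
      apply hns w.val
      rw [← ZMod.intCast_zmod_eq_zero_iff_dvd]
      push_cast at hw ⊢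
      rw [ZMod.natCast_val, ZMod.cast_id]
      linear_combination -hw
    have hD0 : (D : ZMod q) ≠ 0 := by
      intro h0
      rw [ZMod.intCast_zmod_eq_zero_iff_dvd] at h0
      exact hD h0
    -- the product is a square
    have h2 : IsSquare ((D : ZMod q) * ((-a : ℤ) : ZMod q)) := by
      by_cases hq2 : ringChar (ZMod q) = 2
      · exact FiniteField.isSquare_of_char_two hq2 _
      · have e1 := (quadraticChar_neg_one_iff_not_isSquare (F := ZMod q)).2 h1
        have e2 := (quadraticChar_neg_one_iff_not_isSquare (F := ZMod q)).2 ha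
        rw [← quadraticChar_one_iff_isSquare (mul_ne_zero hD0 ha0), map_mul, e1, e2]
        norm_num
    obtain ⟨w, hw⟩ := h2
    obtain ⟨v, hv⟩ : ∃ v : ZMod q, v = w * ((-a : ℤ) : ZMod q)⁻¹ := ⟨_, rfl⟩
    refine ⟨v.val, ?_⟩
    rw [← ZMod.intCast_zmod_eq_zero_iff_dvd]
    have h3 : ((-a * (v.val : ℤ) ^ 2 - D : ℤ) : ZMod q) =
        ((-a : ℤ) : ZMod q) * v ^ 2 - (D : ZMod q) := by
      push_cast
      rw [ZMod.natCast_val, ZMod.cast_id]
    rw [h3, hv, sub_eq_zero, mul_pow]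
    field_simp
    rw [sq, ← hw, mul_comm]

theorem exg : S_EXG := by
  have hI : S_INT := Pool.Agent.N849.PQ.int
  intro L O _ _ _ _ _ _ _ a b θ hc hsq Q 𝔭 𝔮 h hQ8 α D hα hD ⟨s, hs⟩
  have hQ0 : (Q : L) ≠ 0 := by exact_mod_cast h.pr.1.ne'
  obtain ⟨t, ht⟩ := theta_ex O hc
  have htq : t ∉ 𝔮.asIdeal := by
    intro h1
    have h2 := (Pool.Agent.N301.PQ.val_lt_mem (L := L) 𝔮 t).2 h1
    rw [ht, h.tq] at h2
    exact lt_irrefl _ h2
  have ht2 : t ^ 2 + (a : O) ∈ 𝔮.asIdeal := by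
    have h3 : t * (t ^ 2 + (a : O)) ∈ 𝔮.asIdeal := by
      have e : t * (t ^ 2 + (a : O)) = -(b : O) := by
        apply IsFractionRing.injective O L
        rw [map_mul, map_add, map_pow, mapO, map_neg, mapO, ht]
        linear_combination hc.root
      rw [e]
      exact neg_mem ((poly_mem h.pr.2 h.oq b).2 h.qb)
    exact (𝔮.isPrime.mem_or_mem h3).resolve_left htq
  -- a square root of `D` modulo `𝔮`
  obtain ⟨r, hr⟩ : ∃ r : O, r ^ 2 - (D : O) ∈ 𝔮.asIdeal := by
    rcases sq_or h.pr h.ns hD with ⟨z, hz⟩ | ⟨z, hz⟩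
    · refine ⟨(z : O), ?_⟩
      have := (poly_mem (O := O) h.pr.2 h.oq _).2 hz
      push_cast at this
      exact this
    · refine ⟨(z : O) * t, ?_⟩
      have h1 := (poly_mem (O := O) h.pr.2 h.oq _).2 hz
      have h2 := 𝔮.asIdeal.mul_mem_left ((z : O) ^ 2) ht2
      have e : ((z : O) * t) ^ 2 - (D : O) = (((-a * z ^ 2 - D : ℤ)) : O) +
          (z : O) ^ 2 * (t ^ 2 + (a : O)) := by
        push_cast
        ring
      rw [e]
      exact add_mem h1 h2
  have hvQ : 𝔮.valuation L (Q : L) = exp (-1) :=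
    le_antisymm (le_exp_neg (ov_lt h.oq)) (h.vq hI hc hsq)
  have hvα : 𝔮.valuation L α ≠ 0 := (Valuation.ne_zero_iff _).2 hα
  -- the difference
  have hdif : 𝔮.valuation L ((Q : L) * θ - s ^ 2 / α) < exp (-1) := by
    have e : (Q : L) * θ - s ^ 2 / α = (α * ((Q : L) * θ) - s ^ 2) / α := by
      field_simp
    rw [e, map_div₀, div_lt_iff₀ (zero_lt_iff.2 hvα)]
    rw [map_mul, map_mul, hvQ, h.tq, mul_one, mul_comm (𝔮.valuation L α)] at hs
    exact hs
  have hs2 : 𝔮.valuation L (s ^ 2 / α) ≤ 1 := by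
    have e : s ^ 2 / α = (Q : L) * θ - ((Q : L) * θ - s ^ 2 / α) := by ring
    rw [e]
    refine (Valuation.map_sub _ _ _).trans (max_le ?_ ?_)
    · rw [map_mul, hvQ, h.tq, mul_one, ← exp_zero, exp_le_exp]
      norm_num
    · refine hdif.le.trans ?_
      rw [← exp_zero, exp_le_exp]
      norm_num
  obtain ⟨n, u, hu⟩ := 𝔮.exists_primeCompl_mul_eq_of_integer (s ^ 2 / α) hs2
  have huq : (u : O) ∉ 𝔮.asIdeal := u.2
  have htu : t * (u : O) ∉ 𝔮.asIdeal := fun h1 => (𝔮.isPrime.mem_or_mem h1).elim htq huq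
  have hmax : 𝔮.asIdeal.IsMaximal := 𝔮.isMaximal
  obtain ⟨c, i, hi, hci⟩ := hmax.exists_inv htu
  obtain ⟨G, hG⟩ : ∃ G : O, G = c * t * (u : O) * r := ⟨_, rfl⟩
  have hGD : G ^ 2 - (D : O) ∈ 𝔮.asIdeal := by
    have h1 : c * (t * (u : O)) - 1 ∈ 𝔮.asIdeal := by
      have : c * (t * (u : O)) - 1 = -i := by rw [← hci]; ring
      rw [this]
      exact neg_mem hi
    have e : G ^ 2 - (D : O) = (c * (t * (u : O)) - 1) * ((c * (t * (u : O)) + 1) * r ^ 2) +
        (r ^ 2 - (D : O)) := by rw [hG]; ring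
    rw [e]
    exact add_mem (Ideal.mul_mem_right _ _ h1) hr
  have hgg : (algebraMap O L G * s) ^ 2 / α =
      algebraMap O L ((c * t * r) ^ 2 * ((u : O) * n)) := by
    rw [hG]
    simp only [map_mul, map_pow]
    rw [← hu]
    ring
  have hM : algebraMap O L G * s ∈ M0 O α := by
    rw [mem_M0 hα, hgg]
    exact (int_iff O _).2 ⟨_, rfl⟩
  refine ⟨algebraMap O L G * s, hM, ((algebraMap O L G * s) ^ 2 / α -
    (Q : L) * (D : L) * θ) / (Q : L) ^ 2, ?_, ?_⟩
  · refine int_of_val O fun 𝔓 => ?_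
    have hDv : 𝔓.valuation L (D : L) ≤ 1 := Pool.Agent.N966.PQ.val_le 𝔓 _
    have hQv : 𝔓.valuation L ((Q : L) ^ 2) ≠ 0 := (Valuation.ne_zero_iff _).2 (pow_ne_zero 2 hQ0)
    rw [map_div₀, div_le_one₀ (zero_lt_iff.2 hQv)]
    by_cases hOv : Ov Q 𝔓
    · rcases h.all 𝔓 hOv with rfl | rfl
      · -- the prime of degree one
        have hθ := h.thp hc
        refine (Valuation.map_sub _ _ _).trans (max_le ?_ ?_)
        · have e : (algebraMap O L G * s) ^ 2 / α = θ ^ 2 *
              algebraMap O L ((c * r) ^ 2 * ((u : O) * n)) := by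
            rw [hgg]
            simp only [map_mul, map_pow, ht]
            ring
          rw [e, map_mul, map_pow, map_pow]
          calc _ ≤ 𝔓.valuation L (Q : L) ^ 2 * 1 :=
                mul_le_mul' (pow_le_pow_left₀ zero_le hθ 2) (𝔓.valuation_le_one _)
            _ = _ := mul_one _
        · rw [map_mul, map_mul, map_pow]
          calc _ ≤ 𝔓.valuation L (Q : L) * 1 * 𝔓.valuation L (Q : L) :=
                mul_le_mul' (mul_le_mul_right hDv _) hθ
            _ = _ := by rw [mul_one, sq]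
      · -- the prime of degree two
        have e : (algebraMap O L G * s) ^ 2 / α - (Q : L) * (D : L) * θ =
            (Q : L) * (θ * algebraMap O L (G ^ 2 - (D : O))) -
              algebraMap O L (G ^ 2) * ((Q : L) * θ - s ^ 2 / α) := by
          rw [map_sub, map_pow, mapO]
          ring
        have h1 : 𝔓.valuation L (algebraMap O L (G ^ 2 - (D : O))) ≤ exp (-1) :=
          le_exp_neg ((𝔓.valuation_lt_one_iff_mem _).2 hGD)
        have h2 : 𝔓.valuation L ((Q : L) * θ - s ^ 2 / α) ≤ exp (-2) := by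
          by_cases h0 : 𝔓.valuation L ((Q : L) * θ - s ^ 2 / α) = 0
          · rw [h0]; exact zero_le
          obtain ⟨m, hm⟩ := exp_of_ne h0
          rw [hm, exp_lt_exp] at hdif
          rw [hm, exp_le_exp]
          omega
        have e2 : 𝔓.valuation L ((Q : L) ^ 2) = exp (-2) := by
          rw [map_pow, hvQ, ← WithZero.exp_nsmul]
          simp
        rw [e, e2]
        refine (Valuation.map_sub _ _ _).trans (max_le ?_ ?_)
        · rw [map_mul, map_mul, hvQ, h.tq, one_mul]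
          calc _ ≤ exp (-1) * exp (-1) := mul_le_mul_right h1 _
            _ = exp (-2) := by rw [← exp_add]; norm_num
        · rw [map_mul]
          calc _ ≤ 1 * exp (-2) := mul_le_mul' (𝔓.valuation_le_one _) h2
            _ = _ := one_mul _
    · rw [map_pow, ov_eq hOv, one_pow]
      refine (Valuation.map_sub _ _ _).trans (max_le (M0_le1 hα hM 𝔓) ?_)
      rw [map_mul, map_mul, ov_eq hOv, one_mul]
      exact mul_le_one' hDv (val_of_int (theta_int hc) 𝔓)
  · field_simp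
    ring

end Pool.Agent.H6.PR
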