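import Pool.Agent.H62.PR.Sel0

/-!
# Part LAM of project PR (helper62): the image of `psi`
-/

set_option autoImplicit false
set_option linter.all false

open Polynomial IsDedekindDomain NumberField
open scoped Classical

namespace Pool.Agent.H6.PR

open Pool.Agent.H62.PR
open Pool.Agent.N874.PP (Tup chA chB gq tau Two Ev Sq1 U0)
open Pool.Agent.N922.PQ
open Pool.Agent.N301.PQ (co_crd crd_inj crd_add crd_smul crd_C crd_theta mapO exO theta_ex mem_P1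
  mem_P2 mem_both poly_mem int_iff)

theorem loc2_sq {L : Type} [Field L] [CharZero L] {a b : ℤ} {θ : L} (hc : IsCub a b θ) (z : L) :
    Loc2 a b θ (z ^ 2) := by
  intro h hh
  obtain ⟨p, hp⟩ := hc.exists_poly z
  left
  refine ⟨p.map (algebraMap ℚ ℚ_[2]), ?_⟩
  have h3 : ff ℚ a b ∣ h - p ^ 2 := by
    rw [← hc.minpoly_eq]
    apply minpoly.dvd
    rw [map_sub, hh, map_pow, hp, sub_self]
  have h4 := Polynomial.map_dvd (algebraMap ℚ ℚ_[2]) h3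
  rw [ff_map, Polynomial.map_sub, Polynomial.map_pow] at h4
  exact h4

section norm

/-- The residue field of the prime of degree two. -/
theorem absNorm_sq {L : Type} [Field L] [NumberField L] {a b : ℤ} {θ : L} (hI : S_INT)
    (hc : IsCub a b θ) (hsq : Squarefree (dsc a b)) {Q : ℤ} (hQ : IsPr Q) (hQb : Q ∣ b)
    (hns : ∀ z : ℤ, ¬ Q ∣ z ^ 2 + a) {𝔮 : HeightOneSpectrum (𝓞 L)} (ho : Ov Q 𝔮)
    (hθ : 𝔮.valuation L θ = 1) : ∃ k : ℕ, Ideal.absNorm 𝔮.asIdeal = k ^ 2 := by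
  obtain ⟨t, ht⟩ := theta_ex (𝓞 L) hc
  have htq : t ∉ 𝔮.asIdeal := by
    intro h1
    have h2 := (Pool.Agent.N301.PQ.val_lt_mem (L := L) 𝔮 t).2 h1
    rw [ht, hθ] at h2
    exact lt_irrefl _ h2
  have ht2 : t ^ 2 + (a : 𝓞 L) ∈ 𝔮.asIdeal := by
    have h3 : t * (t ^ 2 + (a : 𝓞 L)) ∈ 𝔮.asIdeal := by
      have e : t * (t ^ 2 + (a : 𝓞 L)) = -(b : 𝓞 L) := by
        apply IsFractionRing.injective (𝓞 L) L
        rw [map_mul, map_add, map_pow, mapO, map_neg, mapO, ht]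
        linear_combination hc.root
      rw [e]
      exact neg_mem ((poly_mem hQ.2 ho b).2 hQb)
    exact (𝔮.isPrime.mem_or_mem h3).resolve_left htq
  obtain ⟨n, hn⟩ := Int.eq_ofNat_of_zero_le hQ.1.le
  have hn0 : n ≠ 0 := by
    rintro rfl
    have := hQ.1
    rw [hn] at this
    simp at this
  haveI : NeZero n := ⟨hn0⟩
  -- the two homomorphisms
  let f : ℤ × ℤ →+ (𝓞 L ⧸ 𝔮.asIdeal) :=
    { toFun := fun x => Ideal.Quotient.mk 𝔮.asIdeal ((x.1 : 𝓞 L) + (x.2 : 𝓞 L) * t)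
      map_zero' := by simp
      map_add' := by
        intro x y
        rw [← map_add]
        congr 1
        push_cast [Prod.fst_add, Prod.snd_add]
        ring }
  let g : ℤ × ℤ →+ ZMod n × ZMod n :=
    { toFun := fun x => ((x.1 : ZMod n), (x.2 : ZMod n))
      map_zero' := by simp
      map_add' := by
        intro x y
        ext <;> simp }
  have hf : Function.Surjective f := by
    intro z
    obtain ⟨z, rfl⟩ := Ideal.Quotient.mk_surjective z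
    obtain ⟨v, hv⟩ := exO hI hc hsq z
    refine ⟨(v 0 - a * v 2, v 1), ?_⟩
    change Ideal.Quotient.mk 𝔮.asIdeal _ = Ideal.Quotient.mk 𝔮.asIdeal _
    rw [Ideal.Quotient.eq]
    have e : (((v 0 - a * v 2 : ℤ)) : 𝓞 L) + ((v 1 : ℤ) : 𝓞 L) * t - z =
        -((v 2 : 𝓞 L) * (t ^ 2 + (a : 𝓞 L))) := by
      apply IsFractionRing.injective (𝓞 L) L
      simp only [map_sub, map_add, map_mul, map_pow, map_neg, mapO, ht]
      rw [hv]
      push_cast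
      ring
    rw [e]
    exact neg_mem (Ideal.mul_mem_left _ _ ht2)
  have hg : Function.Surjective g := by
    rintro ⟨x, y⟩
    obtain ⟨x, rfl⟩ := ZMod.intCast_surjective x
    obtain ⟨y, rfl⟩ := ZMod.intCast_surjective y
    exact ⟨(x, y), rfl⟩
  have hker : f.ker = g.ker := by
    ext ⟨p, q⟩
    rw [AddMonoidHom.mem_ker, AddMonoidHom.mem_ker]
    change Ideal.Quotient.mk 𝔮.asIdeal _ = 0 ↔ ((p : ZMod n), (q : ZMod n)) = 0
    rw [Ideal.Quotient.eq_zero_iff_mem, Prod.mk_eq_zero, ZMod.intCast_zmod_eq_zero_iff_dvd,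
      ZMod.intCast_zmod_eq_zero_iff_dvd, ← hn]
    constructor
    · intro h1
      have h2 : Crd θ ![p, q, 0] (algebraMap (𝓞 L) L ((p : 𝓞 L) + (q : 𝓞 L) * t)) := by
        rw [Crd]
        simp [ht]
      obtain ⟨h3, h4⟩ := mem_P2 hQ.2 hns ht ho ht2 h2 h1
      simp at h3 h4
      exact ⟨h4, h3⟩
    · rintro ⟨h1, h2⟩
      exact add_mem ((poly_mem hQ.2 ho p).2 h1)
        (Ideal.mul_mem_right _ _ ((poly_mem hQ.2 ho q).2 h2))
  have e1 := QuotientAddGroup.quotientKerEquivOfSurjective f hf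
  have e2 := QuotientAddGroup.quotientKerEquivOfSurjective g hg
  have hcard : Nat.card (𝓞 L ⧸ 𝔮.asIdeal) = n ^ 2 := by
    rw [← Nat.card_congr e1.toEquiv, hker, Nat.card_congr e2.toEquiv, Nat.card_prod,
      Nat.card_zmod, sq]
  refine ⟨n, ?_⟩
  rw [Ideal.absNorm_apply, Submodule.cardQuot_apply]
  exact hcard

end norm

section lam

variable {L : Type} [Field L] [NumberField L] {a b : ℤ} {θ : L} {X : ℕ} {S T : Finset ℤ}
  {s A B : ℤ → ℤ} {𝔮 : ℤ → HeightOneSpectrum (𝓞 L)}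

theorem dt_ne (d : Dt a b θ X S T s A B 𝔮) {Q : ℤ} (hQ : Q ∈ S) :
    ¬ Ev (𝔮 Q) ((Q : L) * θ) ∧ (Q : L) * θ ≠ 0 := by
  have hEXQ : S_EXQ := parts.exq
  obtain ⟨𝔓₁, 𝔮', h1, h2, h3, h4, h5, h6⟩ := hEXQ L (𝓞 L) a b θ d.hc d.hF.sq Q (d.hS Q hQ).1.2
    (d.hF.rb Q hQ) (fam_ns d.hS d.hF hQ)
  have h7 : 𝔮 Q = 𝔮' := by
    rcases h6 (𝔮 Q) (d.hq Q hQ).1 with h8 | h8
    · rw [← h8, (d.hq Q hQ).2] at h3
      exact absurd h3 (lt_irrefl _)
    · exact h8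
  rw [h7]
  refine ⟨h5, fun h0 => h5 (by rw [h0]; exact ⟨0, by simp⟩)⟩

theorem psi_mul (d : Dt a b θ X S T s A B 𝔮) {α β : L} (hα : α ≠ 0) (hβ : β ≠ 0) :
    psi θ S 𝔮 (α * β) = psi θ S 𝔮 α + psi θ S 𝔮 β := by
  funext Q
  have hn := dt_ne d Q.2
  have h := parts.cls L (𝓞 L) Q (𝔮 Q) ((Q : ℤ) * θ) (d.hS Q Q.2).1.2
    (not_dvd_two (d.hS Q Q.2).2.1 (d.hS Q Q.2).1.1 (d.hS Q Q.2).1.2) (d.hq Q Q.2).1
    hn.2 hn.1 α β hα hβ
  exact Prod.ext (cl_add_aux h.1) (cl_add_aux h.2)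

theorem ev_mul (𝔓 : HeightOneSpectrum (𝓞 L)) (x y : L) (hx : Ev 𝔓 x) (hy : Ev 𝔓 y) :
    Ev 𝔓 (x * y) := by
  obtain ⟨u, hu⟩ := hx
  obtain ⟨v, hv⟩ := hy
  exact ⟨u * v, by rw [map_mul, map_mul, hu, hv, mul_pow]⟩

theorem dt_nt (d : Dt a b θ X S T s A B 𝔮) : ∀ z : ℤ, ¬ (2 : ℤ) ∣ z ^ 3 + a * z + b :=
  fam_nt d.hT d.hF d.hT.1

theorem mset_mul (d : Dt a b θ X S T s A B 𝔮) {α β : L} (hα : α ∈ Mset a b θ S 𝔮)
    (hβ : β ∈ Mset a b θ S 𝔮) : α * β ∈ Mset a b θ S 𝔮 := by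
  obtain ⟨h1, h2, h4, h3⟩ := hα
  obtain ⟨h1', h2', h4', h3'⟩ := hβ
  refine ⟨mul_ne_zero h1 h1', ?_, loc2_mul parts.plm d.hc (dt_nt d) h4 h4',
    fun 𝔓 h𝔓 => ev_mul 𝔓 _ _ (h3 𝔓 h𝔓) (h3' 𝔓 h𝔓)⟩
  rw [map_mul]
  exact h2.mul h2'

theorem mset_one (d : Dt a b θ X S T s A B 𝔮) : (1 : L) ∈ Mset a b θ S 𝔮 :=
  ⟨one_ne_zero, by rw [map_one]; exact IsSquare.one, loc2_one d.hc,
    fun 𝔓 _ => ⟨1, by rw [map_one, one_pow]⟩⟩

theorem psi_one (d : Dt a b θ X S T s A B 𝔮) : psi θ S 𝔮 (1 : L) = 0 := by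
  have h := psi_mul d (one_ne_zero (α := L)) (one_ne_zero (α := L))
  rw [mul_one] at h
  exact left_eq_add.1 h

/-- The image of `psi`. -/
noncomputable def Lam (d : Dt a b θ X S T s A B 𝔮) :
    AddSubgroup ({Q : ℤ // Q ∈ S} → ZMod 2 × ZMod 2) where
  carrier := {l | ∃ α ∈ Mset a b θ S 𝔮, psi θ S 𝔮 α = l}
  add_mem' := by
    rintro _ _ ⟨α, hα, rfl⟩ ⟨β, hβ, rfl⟩
    exact ⟨α * β, mset_mul d hα hβ, psi_mul d hα.1 hβ.1⟩
  zero_mem' := ⟨1, mset_one d, psi_one d⟩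
  neg_mem' := by
    rintro _ ⟨α, hα, rfl⟩
    refine ⟨α, hα, ?_⟩
    rw [eq_neg_iff_add_eq_zero]
    funext Q
    exact Prod.ext (CharTwo.add_self_eq_zero _) (CharTwo.add_self_eq_zero _)

theorem lam_iso (d : Dt a b θ X S T s A B 𝔮) :
    ∀ l ∈ Lam d, ∑ Q : {Q : ℤ // Q ∈ S}, (l Q).1 * (l Q).2 = 0 := by
  rintro _ ⟨α, hα, rfl⟩
  have h := parts.recp L (𝓞 L) a b θ X S T s A B d.hc d.hS d.hT d.hF 𝔮
    (fun Q hQ => d.hq Q hQ) α hα.1 hα.2.1 hα.2.2.1 hα.2.2.2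
  have e1 : ∑ Q : {Q : ℤ // Q ∈ S}, (psi θ S 𝔮 α Q).1 * (psi θ S 𝔮 α Q).2 = ∑ Q ∈ S,
      (if ¬ Ev (𝔮 Q) α ∧ ¬ Sq1 (𝔮 Q) (α * ((Q : L) * θ)) then (1 : ZMod 2) else 0) := by
    rw [← Finset.sum_coe_sort S]
    refine Finset.sum_congr rfl fun Q _ => ?_
    simp only [psi, cl]
    by_cases he : Ev (𝔮 Q) α
    · rw [if_pos he, zero_mul, if_neg (fun h => h.1 he)]
    · by_cases hs : Sq1 (𝔮 Q) (α * (((Q : ℤ) : L) * θ))
      · have hu : U0 (𝔮 Q) (((Q : ℤ) : L) * θ) α := ⟨fun h => absurd h he, fun _ => hs⟩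
        rw [if_neg he, if_pos hu, mul_zero, if_neg (fun h => h.2 hs)]
      · have hu : ¬ U0 (𝔮 Q) (((Q : ℤ) : L) * θ) α := fun h => hs (h.2 he)
        rw [if_neg he, if_neg hu, mul_one, if_pos ⟨he, hs⟩]
  rw [e1, Finset.sum_ite, Finset.sum_const_zero, add_zero, Finset.sum_const, nsmul_eq_mul,
    mul_one]
  exact (ZMod.natCast_eq_zero_iff_even).2 h

/-- The products over finite sets. -/
theorem prod_symm {m : ℕ} (x : Fin m → L) (c c' : Finset (Fin m)) :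
    (∏ i ∈ c, x i) * ∏ i ∈ c', x i = (∏ i ∈ symmDiff c c', x i) * (∏ i ∈ c ∩ c', x i) ^ 2 := by
  have h1 : ∏ i ∈ c, x i = (∏ i ∈ c \ c', x i) * ∏ i ∈ c ∩ c', x i := by
    rw [← Finset.prod_union (Finset.disjoint_sdiff_inter c c'), Finset.sdiff_union_inter]
  have h2 : ∏ i ∈ c', x i = (∏ i ∈ c' \ c, x i) * ∏ i ∈ c ∩ c', x i := by
    rw [Finset.inter_comm c c', ← Finset.prod_union (Finset.disjoint_sdiff_inter c' c),
      Finset.sdiff_union_inter]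
  have h3 : ∏ i ∈ symmDiff c c', x i = (∏ i ∈ c \ c', x i) * ∏ i ∈ c' \ c, x i := by
    rw [symmDiff_def, Finset.sup_eq_union, Finset.prod_union]
    rw [Finset.disjoint_left]
    intro i hi hi'
    exact (Finset.mem_sdiff.1 hi').2 (Finset.mem_sdiff.1 hi).1
  rw [h1, h2, h3]
  ring

theorem lam_card (hSUN : S_SUN) (hL2I : S_L2I) (d : Dt a b θ X S T s A B 𝔮) :
    2 ^ S.card ≤ Nat.card (Lam d) := by
  have hI : S_INT := Pool.Agent.N849.PQ.int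
  obtain ⟨n, hn⟩ : ∃ n, n = S.card := ⟨_, rfl⟩
  let e : Fin n ≃ {Q : ℤ // Q ∈ S} := (Fintype.equivFinOfCardEq (by
    rw [Fintype.card_coe, hn])).symm
  have hinj : Function.Injective fun i => 𝔮 (e i) := by
    intro i j hij
    have h1 := (d.hq (e i) (e i).2).1
    have hij' : 𝔮 (e i) = 𝔮 (e j) := hij
    rw [hij'] at h1
    exact e.injective (Subtype.ext (below_unique (d.hS _ (e i).2).1 (d.hS _ (e j).2).1 h1
      (d.hq (e j) (e j).2).1))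
  obtain ⟨x, hx, hind⟩ := hSUN L d.hc.rank n (fun i => 𝔮 (e i)) hinj (fun i =>
    absNorm_sq hI d.hc d.hF.sq (d.hS _ (e i).2).1 (d.hF.rb _ (e i).2) (fam_ns d.hS d.hF (e i).2)
      (d.hq _ (e i).2).1 (d.hq _ (e i).2).2)
  -- the products
  let y : Finset (Fin (n + 1)) → L := fun c => ∏ i ∈ c, x i
  have hy0 : ∀ c, y c ≠ 0 := fun c => Finset.prod_ne_zero_iff.2 fun i _ => (hx i).1
  have hyN : ∀ c, IsSquare (Algebra.norm ℚ (y c)) := by
    intro c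
    simp only [y]
    rw [map_prod]
    clear hinj
    induction c using Finset.induction_on with
    | empty => exact IsSquare.one
    | insert i c hi ih =>
      rw [Finset.prod_insert hi]
      exact (hx i).2.1.mul ih
  have hyE : ∀ c, ∀ 𝔓 : HeightOneSpectrum (𝓞 L), (∀ Q ∈ S, 𝔓 ≠ 𝔮 Q) → Ev 𝔓 (y c) := by
    intro c 𝔓 h𝔓
    refine ⟨1, ?_⟩
    simp only [y]
    rw [map_prod, map_one, one_pow]
    exact Finset.prod_eq_one fun i _ => (hx i).2.2 𝔓 fun j => h𝔓 _ (e j).2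
  have hsymm : ∀ c c', y c * y c' = y (symmDiff c c') * (∏ i ∈ c ∩ c', x i) ^ 2 :=
    fun c c' => prod_symm x c c'
  have hnt := dt_nt d
  -- the sets for which the condition at `2` holds
  let C : Finset (Finset (Fin (n + 1))) := Finset.univ.filter fun c => Loc2 a b θ (y c)
  have hC : ∀ c c', c ∉ C → c' ∉ C → symmDiff c c' ∈ C := by
    intro c c' hc hc'
    have h1 : ¬ Loc2 a b θ (y c) := fun h => hc (Finset.mem_filter.2 ⟨Finset.mem_univ _, h⟩)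
    have h2 : ¬ Loc2 a b θ (y c') := fun h => hc' (Finset.mem_filter.2 ⟨Finset.mem_univ _, h⟩)
    have h3 := hL2I L a b θ d.hc hnt d.h4 (y c) (y c') (hy0 c) (hy0 c') (hyN c) (hyN c') h1 h2
    have h4 := loc2_mul parts.plm d.hc hnt h3 (loc2_sq d.hc (∏ i ∈ c ∩ c', x i)⁻¹)
    refine Finset.mem_filter.2 ⟨Finset.mem_univ _, ?_⟩
    have h5 : y (symmDiff c c') = y c * y c' * (∏ i ∈ c ∩ c', x i)⁻¹ ^ 2 := by
      rw [hsymm, mul_assoc, ← mul_pow, mul_inv_cancel₀ (hy0 (c ∩ c')), one_pow, mul_one]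
    rw [h5]
    exact h4
  have hcard : 2 ^ n ≤ C.card := by
    have htot : (Finset.univ : Finset (Finset (Fin (n + 1)))).card = 2 ^ (n + 1) := by
      simp
    by_cases hall : ∀ c, c ∈ C
    · have h1 : C = Finset.univ := Finset.eq_univ_iff_forall.2 hall
      rw [h1, htot]
      exact Nat.pow_le_pow_right (by norm_num) (Nat.le_succ n)
    · push Not at hall
      obtain ⟨c0, hc0⟩ := hall
      have h1 : Cᶜ.card ≤ C.card := by
        refine Finset.card_le_card_of_injOn (fun c => symmDiff c c0) ?_ ?_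
        · intro c hc
          exact hC c c0 (Finset.mem_compl.1 hc) hc0
        · intro c _ c' _ h
          exact symmDiff_left_injective c0 h
      have h2 := Finset.card_add_card_compl C
      rw [Fintype.card_finset, Fintype.card_fin, pow_succ] at h2
      omega
  -- the map to `Lam`
  rw [← hn]
  refine hcard.trans ?_
  have hmem : ∀ c ∈ C, psi θ S 𝔮 (y c) ∈ Lam d := fun c hc =>
    ⟨y c, ⟨hy0 c, hyN c, (Finset.mem_filter.1 hc).2, hyE c⟩, rfl⟩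
  haveI : Finite (Lam d) := inferInstance
  rw [← Fintype.card_coe C, ← Nat.card_eq_fintype_card]
  refine Nat.card_le_card_of_injective (fun c : C => (⟨psi θ S 𝔮 (y c), hmem c c.2⟩ : Lam d)) ?_
  intro c c' h
  have h1 : psi θ S 𝔮 (y c) = psi θ S 𝔮 (y c') := congrArg Subtype.val h
  have h2 : psi θ S 𝔮 (y c * y c') = 0 := by
    rw [psi_mul d (hy0 _) (hy0 _), h1]
    funext Q
    exact Prod.ext (CharTwo.add_self_eq_zero _) (CharTwo.add_self_eq_zero _)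
  have h3 : y c * y c' ∈ Mset a b θ S 𝔮 := mset_mul d
    ⟨hy0 c, hyN c, (Finset.mem_filter.1 c.2).2, hyE c⟩
    ⟨hy0 c', hyN c', (Finset.mem_filter.1 c'.2).2, hyE c'⟩
  obtain ⟨r, hr⟩ := d.inj _ h3 h2
  have h4 : IsSquare (∏ i ∈ symmDiff (c : Finset (Fin (n + 1))) c', x i) := by
    refine ⟨r * (∏ i ∈ (c : Finset (Fin (n + 1))) ∩ c', x i)⁻¹, ?_⟩
    have h5 : y (symmDiff (c : Finset (Fin (n + 1))) c') =
        y c * y c' * (∏ i ∈ (c : Finset (Fin (n + 1))) ∩ c', x i)⁻¹ ^ 2 := by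
      rw [hsymm, mul_assoc, ← mul_pow, mul_inv_cancel₀ (hy0 _), one_pow, mul_one]
    change y (symmDiff (c : Finset (Fin (n + 1))) c') = _
    rw [h5, hr]
    ring
  have h5 := hind _ h4
  exact Subtype.ext (symmDiff_eq_bot.1 h5)

theorem lam (hSUN : S_SUN) (hL2I : S_L2I) : S_LAM := by
  intro L _ _ a b θ X S T s A B 𝔮 d
  exact ⟨Lam d, fun l => Iff.rfl, lam_iso d, lam_card hSUN hL2I d⟩

end lam

end Pool.Agent.H6.PR
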