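import Pool.Agent.H62.PR.Loc0
import Pool.Graph.R_pool_sql_team_seeded_63374d34.N849.PQ.Int
import Pool.Graph.R_pool_sql_team_seeded_63374d34.N42.PQ.Cls

/-!
# Part LOC1 of project PR (helper62): type 1
-/

set_option autoImplicit false
set_option linter.all false

open IsDedekindDomain NumberField WithZero Polynomial Matrix
open scoped Classical

namespace Pool.Agent.H6.PR

open Pool.Agent.H62.PR
open Pool.Agent.N874.PP (Tup chA chB gq tau Two Ev Sq1 U0)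
open Pool.Agent.N922.PQ
open Pool.Agent.N301.PQ (co_crd crd_inj crd_add crd_smul crd_C crd_theta mapO exO theta_ex mem_P1
  mem_P2 mem_both poly_mem int_iff)

section a

variable {L O : Type} [Field L] [NumberField L] [CommRing O] [IsDedekindDomain O] [Algebra O L]
  [IsFractionRing O L] [IsIntegralClosure O ℤ L] {a b : ℤ} {θ : L} {Q : ℤ}
  {𝔭 𝔮 : HeightOneSpectrum O}

theorem twoP_t2 (hc : IsCub a b θ) (h : TwoP a b θ Q 𝔭 𝔮) {t : O} (ht : algebraMap O L t = θ) :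
    t ∉ 𝔮.asIdeal ∧ t ^ 2 + (a : O) ∈ 𝔮.asIdeal := by
  have htq : t ∉ 𝔮.asIdeal := by
    intro h1
    have h2 := (Pool.Agent.N301.PQ.val_lt_mem (L := L) 𝔮 t).2 h1
    rw [ht, h.tq] at h2
    exact lt_irrefl _ h2
  refine ⟨htq, ?_⟩
  have h3 : t * (t ^ 2 + (a : O)) ∈ 𝔮.asIdeal := by
    have e : t * (t ^ 2 + (a : O)) = -(b : O) := by
      apply IsFractionRing.injective O L
      rw [map_mul, map_add, map_pow, mapO, map_neg, mapO, ht]
      linear_combination hc.root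
    rw [e]
    exact neg_mem ((poly_mem h.pr.2 h.oq b).2 h.qb)
  exact (𝔮.isPrime.mem_or_mem h3).resolve_left htq

/-- An element of valuation one modulo a square. -/
theorem sq_mod_of {𝔮 : HeightOneSpectrum O} {x : O} (hx : x ∉ 𝔮.asIdeal)
    (h : Sq1 𝔮 (algebraMap O L x)) : ∃ w : O, w ^ 2 - x ∈ 𝔮.asIdeal := by
  obtain ⟨s, hs⟩ := h
  have hvx : 𝔮.valuation L (algebraMap O L x) = 1 := 𝔮.valuation_eq_one_iff_notMem.2 hx
  rw [hvx] at hs
  have hs1 : 𝔮.valuation L s ≤ 1 := by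
    have h1 : 𝔮.valuation L (s ^ 2) ≤ 1 := by
      have e : s ^ 2 = algebraMap O L x - (algebraMap O L x - s ^ 2) := by ring
      rw [e]
      exact (Valuation.map_sub _ _ _).trans (max_le hvx.le hs.le)
    rw [map_pow] at h1
    exact (pow_le_one_iff two_ne_zero).1 h1
  obtain ⟨n, u, hu⟩ := 𝔮.exists_primeCompl_mul_eq_of_integer s hs1
  have hmax : 𝔮.asIdeal.IsMaximal := 𝔮.isMaximal
  obtain ⟨c, i, hi, hci⟩ := hmax.exists_inv (show (u : O) ∉ 𝔮.asIdeal from u.2)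
  refine ⟨c * n, ?_⟩
  have h1 : n ^ 2 - x * (u : O) ^ 2 ∈ 𝔮.asIdeal := by
    rw [← Pool.Agent.N301.PQ.val_lt_mem (L := L)]
    have e : algebraMap O L (n ^ 2 - x * (u : O) ^ 2) =
        -(algebraMap O L (u : O) ^ 2 * (algebraMap O L x - s ^ 2)) := by
      rw [map_sub, map_pow, map_mul, map_pow, ← hu]
      ring
    rw [e, Valuation.map_neg, map_mul]
    calc _ ≤ 1 * 𝔮.valuation L (algebraMap O L x - s ^ 2) := by
          refine mul_le_mul_left ?_ _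
          rw [← map_pow]
          exact 𝔮.valuation_le_one _
      _ < 1 := by rw [one_mul]; exact hs
  have e : (c * n) ^ 2 - x = c ^ 2 * (n ^ 2 - x * (u : O) ^ 2) -
      x * (1 + c * (u : O)) * i := by
    have hi' : i = 1 - c * (u : O) := by rw [← hci]; ring
    rw [hi']
    ring
  rw [e]
  exact sub_mem (Ideal.mul_mem_left _ _ h1) (Ideal.mul_mem_left _ _ hi)

/-- `θ` is not a square at `𝔮`. -/
theorem theta_not_sq (hI : S_INT) (hc : IsCub a b θ) (hsq : Squarefree (dsc a b))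
    (h : TwoP a b θ Q 𝔭 𝔮) (hQ8 : Q % 8 = 1) : ¬ Sq1 𝔮 θ := by
  intro hs
  obtain ⟨t, ht⟩ := theta_ex O hc
  obtain ⟨htq, ht2⟩ := twoP_t2 hc h ht
  rw [← ht] at hs
  obtain ⟨w, hw⟩ := sq_mod_of htq hs
  obtain ⟨v, hv⟩ := exO hI hc hsq w
  -- `w = p + q t` modulo `𝔮`
  obtain ⟨p, hp⟩ : ∃ p : ℤ, p = v 0 - a * v 2 := ⟨_, rfl⟩
  obtain ⟨q, hq⟩ : ∃ q : ℤ, q = v 1 := ⟨_, rfl⟩
  have h1 : w - ((p : O) + (q : O) * t) ∈ 𝔮.asIdeal := by
    have e : w - ((p : O) + (q : O) * t) = (v 2 : O) * (t ^ 2 + (a : O)) := by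
      apply IsFractionRing.injective O L
      simp only [map_sub, map_add, map_mul, map_pow, mapO, ht]
      rw [hv, hp, hq]
      push_cast
      ring
    rw [e]
    exact Ideal.mul_mem_left _ _ ht2
  obtain ⟨z, hz⟩ : ∃ z : O, z = ((p : O) + (q : O) * t) ^ 2 - t := ⟨_, rfl⟩
  have h2 : z ∈ 𝔮.asIdeal := by
    have e : z = (w ^ 2 - t) - (w - ((p : O) + (q : O) * t)) * (w + ((p : O) + (q : O) * t)) := by
      rw [hz]; ring
    rw [e]
    exact sub_mem hw (Ideal.mul_mem_right _ _ h1)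
  have h3 : Crd θ ![p ^ 2, 2 * p * q - 1, q ^ 2] (algebraMap O L z) := by
    rw [hz, Crd]
    simp only [map_sub, map_add, map_mul, map_pow, mapO, ht, Matrix.cons_val_zero,
      Matrix.cons_val_one, Matrix.cons_val]
    push_cast
    ring
  obtain ⟨h4, h5⟩ := mem_P2 h.pr.2 h.ns ht h.oq ht2 h3 h2
  simp only [Matrix.cons_val_zero, Matrix.cons_val_one, Matrix.cons_val] at h4 h5
  -- a square root of `-1`
  obtain ⟨hQ0, hQp⟩ := h.pr
  obtain ⟨n, hn⟩ := Int.eq_ofNat_of_zero_le hQ0.le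
  haveI : Fact n.Prime := ⟨by rw [hn] at hQp; exact_mod_cast Int.prime_iff_natAbs_prime.1 hQp⟩
  have h6 : IsSquare (-1 : ZMod n) := by
    rw [ZMod.exists_sq_eq_neg_one_iff]
    omega
  obtain ⟨i, hi⟩ := h6
  have h4' : ((2 * p * q - 1 : ℤ) : ZMod n) = 0 := by
    rw [ZMod.intCast_zmod_eq_zero_iff_dvd, ← hn]; exact h4
  have h5' : ((p ^ 2 - a * q ^ 2 : ℤ) : ZMod n) = 0 := by
    rw [ZMod.intCast_zmod_eq_zero_iff_dvd, ← hn]; exact h5
  push_cast at h4' h5'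
  -- `(2 p ^ 2 i) ^ 2 = - a` modulo `Q`
  apply h.ns (2 * p ^ 2 * (i.val : ℤ))
  rw [hn, ← ZMod.intCast_zmod_eq_zero_iff_dvd]
  push_cast
  rw [ZMod.natCast_val, ZMod.cast_id]
  have e1 : (2 * (p : ZMod n) * q) = 1 := by linear_combination h4'
  have e2 : (p : ZMod n) ^ 2 = a * q ^ 2 := by linear_combination h5'
  have e3 : i ^ 2 = -1 := by rw [sq]; exact hi.symm
  -- `4 p ^ 4 i ^ 2 + a = - 4 p ^ 2 (a q ^ 2) + a = a (1 - (2 p q) ^ 2)`
  linear_combination (4 * (p : ZMod n) ^ 4) * e3 - 4 * (p : ZMod n) ^ 2 * e2 -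
    a * (2 * (p : ZMod n) * q + 1) * e1

/-- The element `ε` of the lattice. -/
theorem ex_eps (hI : S_INT) (hc : IsCub a b θ) (hsq : Squarefree (dsc a b))
    (h : TwoP a b θ Q 𝔭 𝔮) {α : L} (hα : α ≠ 0) (hs : Sq1 𝔮 (α * θ)) :
    ∃ ε ∈ M0 O α, 𝔭.valuation L (ε ^ 2 / α) < 1 ∧
      ∃ y : L, IsIntegral ℤ y ∧ ε ^ 2 / α = θ + (Q : L) * y := by
  obtain ⟨s, hs⟩ := hs
  obtain ⟨t, ht⟩ := theta_ex O hc
  obtain ⟨htq, ht2⟩ := twoP_t2 hc h ht
  have hvα : 𝔮.valuation L α ≠ 0 := (Valuation.ne_zero_iff _).2 hα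
  have hdif : 𝔮.valuation L (θ - s ^ 2 / α) < 1 := by
    have e : θ - s ^ 2 / α = (α * θ - s ^ 2) / α := by
      field_simp
    rw [e, map_div₀, div_lt_one₀ (zero_lt_iff.2 hvα)]
    rw [map_mul, h.tq, mul_one] at hs
    exact hs
  have hs2 : 𝔮.valuation L (s ^ 2 / α) ≤ 1 := by
    have e : s ^ 2 / α = θ - (θ - s ^ 2 / α) := by ring
    rw [e]
    exact (Valuation.map_sub _ _ _).trans (max_le h.tq.le hdif.le)
  obtain ⟨n, u, hu⟩ := 𝔮.exists_primeCompl_mul_eq_of_integer (s ^ 2 / α) hs2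
  have huq : (u : O) ∉ 𝔮.asIdeal := u.2
  have htu : t * (u : O) ∉ 𝔮.asIdeal := fun h1 => (𝔮.isPrime.mem_or_mem h1).elim htq huq
  have hmax : 𝔮.asIdeal.IsMaximal := 𝔮.isMaximal
  obtain ⟨c, i, hi, hci⟩ := hmax.exists_inv htu
  obtain ⟨G, hG⟩ : ∃ G : O, G = c * t * (u : O) := ⟨_, rfl⟩
  have hG1 : G ^ 2 - 1 ∈ 𝔮.asIdeal := by
    have e : G ^ 2 - 1 = -(i * (G + 1)) := by
      have hi' : i = 1 - c * (t * (u : O)) := by rw [← hci]; ring
      rw [hG, hi']; ring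
    rw [e]
    exact neg_mem (Ideal.mul_mem_right _ _ hi)
  have hgg : (algebraMap O L G * s) ^ 2 / α =
      algebraMap O L ((c * t) ^ 2 * ((u : O) * n)) := by
    rw [hG]
    simp only [map_mul, map_pow]
    rw [← hu]
    ring
  have hM : algebraMap O L G * s ∈ M0 O α := by
    rw [mem_M0 hα, hgg]
    exact (int_iff O _).2 ⟨_, rfl⟩
  have hint := (mem_M0 hα).1 hM
  have hp1 : 𝔭.valuation L ((algebraMap O L G * s) ^ 2 / α) < 1 := by
    have e : (algebraMap O L G * s) ^ 2 / α = θ ^ 2 *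
        algebraMap O L (c ^ 2 * ((u : O) * n)) := by
      rw [hgg]
      simp only [map_mul, map_pow, ht]
      ring
    rw [e, map_mul, map_pow]
    calc _ ≤ 𝔭.valuation L θ ^ 2 * 1 := mul_le_mul_right (𝔭.valuation_le_one _) _
      _ < 1 := by rw [mul_one]; exact pow_lt_one₀ zero_le h.tp two_ne_zero
  refine ⟨algebraMap O L G * s, hM, hp1, ?_⟩
  obtain ⟨y, hy, e⟩ := h.div hI hc hsq (hint.sub (theta_int hc)) (by
    refine lt_of_le_of_lt (Valuation.map_sub _ _ _) (max_lt hp1 h.tp)) (by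
    have e : (algebraMap O L G * s) ^ 2 / α - θ =
        algebraMap O L (G ^ 2 - 1) * θ - algebraMap O L (G ^ 2) * (θ - s ^ 2 / α) := by
      rw [map_sub, map_pow, map_one]
      ring
    rw [e]
    refine lt_of_le_of_lt (Valuation.map_sub _ _ _) (max_lt ?_ ?_)
    · rw [map_mul, h.tq, mul_one]
      exact (𝔮.valuation_lt_one_iff_mem _).2 hG1
    · rw [map_mul]
      calc _ ≤ 1 * 𝔮.valuation L (θ - s ^ 2 / α) := mul_le_mul_left (𝔮.valuation_le_one _) _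
        _ < 1 := by rw [one_mul]; exact hdif)
  exact ⟨y, hy, by rw [← e]; ring⟩

end a

theorem co_sum {L : Type} [Field L] [CharZero L] {a b : ℤ} {θ : L} (hc : IsCub a b θ)
    (k : Fin 3) (z α : L) (c : Fin 3 → ℤ) (e : Fin 3 → L) :
    hc.co k (z * (∑ j, (c j : L) * e j) / α) = ∑ j, (c j : ℚ) * hc.co k (z * e j / α) := by
  rw [Finset.mul_sum, Finset.sum_div, map_sum]
  refine Finset.sum_congr rfl fun j _ => ?_
  rw [show z * ((c j : L) * e j) / α = (c j : L) * (z * e j / α) by ring,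
    Pool.Agent.N227.PQ.co_int_smul]

theorem loc1 : S_LOC1 := by
  have hI : S_INT := Pool.Agent.N849.PQ.int
  intro L O _ _ _ _ _ _ _ a b θ hc hsq α J 𝔭 𝔮 g hT e B hNB hbas hmem Q 𝔭' 𝔮' h hQ8 hQJ hEv hns s hs
  have hα := hT.ne
  have hQ0 : (Q : L) ≠ 0 := by exact_mod_cast h.pr.1.ne'
  -- `α θ` is a square at `𝔮'`
  have hθ0 : θ ≠ 0 := by
    intro h0
    have := h.tq
    rw [h0, map_zero] at this
    exact zero_ne_one this
  have hvQ : 𝔮'.valuation L (Q : L) = exp (-1) :=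
    le_antisymm (le_exp_neg (ov_lt h.oq)) (h.vq hI hc hsq)
  have hϖ : ¬ Ev 𝔮' ((Q : L) * θ) := by
    rintro ⟨y, hy⟩
    rw [map_mul, hvQ, h.tq, mul_one] at hy
    by_cases h0 : 𝔮'.valuation L y = 0
    · rw [h0, zero_pow two_ne_zero] at hy
      exact WithZero.exp_ne_zero hy
    obtain ⟨m, hm⟩ := exp_of_ne h0
    rw [hm, ← WithZero.exp_nsmul] at hy
    have := WithZero.exp_injective hy
    simp at this
    omega
  have hEvα : Ev 𝔮' α := hEv 𝔮' h.oq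
  have hEvθ : Ev 𝔮' θ := ⟨1, by rw [h.tq, map_one, one_pow]⟩
  have hsθ : ¬ Sq1 𝔮' θ := theta_not_sq hI hc hsq h hQ8
  have hcls := Pool.Agent.N42.PQ.cls L O Q 𝔮' ((Q : L) * θ) h.pr.2
    (not_dvd_two hQ8 h.pr.1 h.pr.2) h.oq (mul_ne_zero hQ0 hθ0) hϖ α θ hα hθ0
  have hSq : Sq1 𝔮' (α * θ) := by
    have h1 : U0 𝔮' ((Q : L) * θ) (α * θ) := by
      rw [hcls.2]
      constructor
      · intro h2
        exact absurd (h2.1 hEvα) hns
      · intro h2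
        exact absurd (h2.1 hEvθ) hsθ
    exact h1.1 (hcls.1.2 ⟨fun _ => hEvθ, fun _ => hEvα⟩)
  obtain ⟨ε, hε, hεp, y, hy, hεy⟩ := ex_eps hI hc hsq h hα hSq
  -- the coordinates
  obtain ⟨w, hw, hw'⟩ := co_int hI hc hsq hy
  obtain ⟨D, hD⟩ : ∃ D : ℤ, D = ∏ Q ∈ J, Q := ⟨_, rfl⟩
  rw [← hD] at hNB hs
  have hQD : ¬ Q ∣ D := by
    rw [hD]
    exact not_dvd_prod (fun P hP => hT.pr hP) h.pr hQJ
  have hD0 : (D : ℚ) ≠ 0 := by
    have : D ≠ 0 := by
      rintro rfl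
      exact hQD (dvd_zero _)
    exact_mod_cast this
  have hε1 := hT.M0_le_MU hI hc hsq ε hε
  have hε2 : (D : L) * (θ * ε) ∈ M0 O α := by
    rw [← mapO (O := O) D, ← Algebra.smul_def]
    exact Submodule.smul_mem _ _ (M0_theta hc hε)
  obtain ⟨ξ, hξ⟩ := hbas ε hε1
  obtain ⟨ζ, hζ⟩ := hbas _ (hT.M0_le_MU hI hc hsq _ hε2)
  -- the products with the basis
  have hG : ∀ (c : Fin 3 → ℤ) (i : Fin 3), (((JJ *ᵥ c) i : ℤ) : ℚ) =
      hc.co 2 (e i * (∑ j, (c j : L) * e j) / α) := by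
    intro c i
    rw [co_sum, Matrix.mulVec, dotProduct]
    push_cast
    refine Finset.sum_congr rfl fun j _ => ?_
    rw [hNB.g i j, mul_comm]
  have hBs : ∀ i j, B i j = B j i := by
    intro i j
    have h1 : (B i j : ℚ) = (B j i : ℚ) := by
      rw [← hNB.b, ← hNB.b, mul_comm (e i)]
    exact_mod_cast h1
  have hmat : ∀ i j, mat (tup B) i j = B i j := by
    intro i j
    have h01 := hBs 0 1
    have h02 := hBs 0 2
    have h12 := hBs 1 2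
    have h11 := hNB.tr
    fin_cases i <;> fin_cases j <;> simp [mat, tup] <;> omega
  have hB : ∀ (c : Fin 3 → ℤ) (i : Fin 3), (((mat (tup B) *ᵥ c) i : ℤ) : ℚ) =
      (D : ℚ) * hc.co 1 (e i * (∑ j, (c j : L) * e j) / α) := by
    intro c i
    rw [co_sum, Matrix.mulVec, dotProduct, Finset.mul_sum]
    push_cast
    refine Finset.sum_congr rfl fun j _ => ?_
    rw [hmat, ← hNB.b i j]
    ring
  have hF : ∀ (c d : Fin 3 → ℤ), (((c ⬝ᵥ JJ *ᵥ d) : ℤ) : ℚ) =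
      hc.co 2 ((∑ i, (c i : L) * e i) * (∑ j, (d j : L) * e j) / α) := by
    intro c d
    rw [mul_comm (∑ i, (c i : L) * e i), co_sum, dotProduct]
    push_cast
    refine Finset.sum_congr rfl fun i _ => ?_
    rw [hG, mul_comm (e i)]
  have hcoθ : ∀ k, hc.co k θ = ((![0, 1, 0] : Fin 3 → ℤ) k : ℚ) := fun k =>
    co_crd hc (v := ![0, 1, 0]) (by simp [Crd]) k
  refine ⟨ξ, ζ, ?_, ?_, ?_, ?_, ?_⟩
  · -- `ξ ⬝ JJ ξ`
    have h1 := hF ξ ξ
    rw [← hξ, ← sq, hεy, map_add, Pool.Agent.N227.PQ.co_int_smul, hw', hcoθ] at h1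
    refine ⟨w 2, ?_⟩
    have h2 : (((ξ ⬝ᵥ JJ *ᵥ ξ) : ℤ) : ℚ) = ((Q * w 2 : ℤ) : ℚ) := by
      rw [h1]; push_cast; simp
    exact_mod_cast h2
  · have h1 := hF ζ ζ
    have e1 : ((D : L) * (θ * ε)) * ((D : L) * (θ * ε)) / α =
        ((D ^ 2 : ℤ) : L) * (θ ^ 2 * θ + ((Q : ℤ) : L) * (θ ^ 2 * y)) := by
      have : ((D : L) * (θ * ε)) * ((D : L) * (θ * ε)) / α = (D : L) ^ 2 * (θ ^ 2 * (ε ^ 2 / α)) := by
        ring
      rw [this, hεy]
      push_cast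
      ring
    rw [← hζ, e1, Pool.Agent.N227.PQ.co_int_smul, map_add, Pool.Agent.N227.PQ.co_int_smul,
      (Pool.Agent.N227.PQ.co_th hc _).2, (Pool.Agent.N227.PQ.co_th hc _).2, hw', hw', hcoθ, hcoθ] at h1
    refine ⟨D ^ 2 * (w 0 - a * w 2), ?_⟩
    have h2 : (((ζ ⬝ᵥ JJ *ᵥ ζ) : ℤ) : ℚ) = ((Q * (D ^ 2 * (w 0 - a * w 2)) : ℤ) : ℚ) := by
      rw [h1]
      simp
      ring
    exact_mod_cast h2
  · have h1 := hF ξ ζ
    have e1 : ε * ((D : L) * (θ * ε)) / α = (D : L) * (θ * (θ + (Q : L) * y)) := by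
      have : ε * ((D : L) * (θ * ε)) / α = (D : L) * (θ * (ε ^ 2 / α)) := by ring
      rw [this, hεy]
    rw [← hζ, ← hξ, e1, Pool.Agent.N227.PQ.co_int_smul, (Pool.Agent.N227.PQ.co_th hc _).1, map_add,
      Pool.Agent.N227.PQ.co_int_smul, hw', hcoθ] at h1
    have h2 : ξ ⬝ᵥ JJ *ᵥ ζ = D * (1 + Q * w 1) := by
      have : (((ξ ⬝ᵥ JJ *ᵥ ζ) : ℤ) : ℚ) = ((D * (1 + Q * w 1) : ℤ) : ℚ) := by
        rw [h1]
        simp
      exact_mod_cast this
    rw [h2]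
    intro hd
    rcases h.pr.2.dvd_or_dvd hd with h3 | h3
    · exact hQD h3
    · have h4 : Q ∣ 1 := (dvd_add_left (dvd_mul_right Q (w 1))).1 h3
      exact h.pr.2.not_unit (isUnit_of_dvd_one h4)
  · intro i
    have h1 : (mat (tup B) *ᵥ ξ) i = (JJ *ᵥ ζ) i := by
      have h2 : (((mat (tup B) *ᵥ ξ) i : ℤ) : ℚ) = (((JJ *ᵥ ζ) i : ℤ) : ℚ) := by
        rw [hB, hG, ← hξ, ← hζ]
        have e1 : e i * ((D : L) * (θ * ε)) / α = (D : L) * (θ * (e i * ε / α)) := by ring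
        rw [e1, Pool.Agent.N227.PQ.co_int_smul, (Pool.Agent.N227.PQ.co_th hc _).1]
      exact_mod_cast h2
    rw [h1, sub_self]
    exact dvd_zero _
  · intro i
    -- `e i ε / α` is integral and small at `𝔭'`
    have hnR : 𝔭' ∉ RR J 𝔮 := by
      rintro ⟨Q', hQ', he⟩
      have h1 := h.op
      rw [he] at h1
      exact hQJ (below_unique h.pr (hT.pr hQ') h1 (hT.two Q' hQ').oq ▸ hQ')
    have hint : IsIntegral ℤ (e i * ε / α) := F1 hα (hmem i).1 hε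
    have hlt : 𝔭'.valuation L (e i * ε / α) < 1 := by
      apply lt_of_sq_lt
      rw [val_sq hα]
      calc _ ≤ 1 * 𝔭'.valuation L (ε ^ 2 / α) := mul_le_mul_left (II_le hα (hmem i).1 hnR) _
        _ < 1 := by rw [one_mul]; exact hεp
    obtain ⟨v, hv, hv'⟩ := co_int hI hc hsq hint
    obtain ⟨d, hd⟩ := h.div0 hI hc hsq hv hlt
    obtain ⟨k, hk⟩ := hs
    have h2 : (((mat (tup B) *ᵥ ζ) i : ℤ) : ℚ) = (D : ℚ) ^ 2 * (v 0 - a * v 2) := by
      rw [hB, ← hζ]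
      have e1 : e i * ((D : L) * (θ * ε)) / α = (D : L) * (θ * (e i * ε / α)) := by ring
      rw [e1, Pool.Agent.N227.PQ.co_int_smul, ← (Pool.Agent.N227.PQ.co_th hc (θ * (e i * ε / α))).1,
        show θ * (θ * (e i * ε / α)) = θ ^ 2 * (e i * ε / α) by ring,
        (Pool.Agent.N227.PQ.co_th hc _).2, hv', hv']
      ring
    have h3 : (((JJ *ᵥ ξ) i : ℤ) : ℚ) = v 2 := by
      rw [hG, ← hξ, hv']
    have h2' : (mat (tup B) *ᵥ ζ) i = D ^ 2 * (v 0 - a * v 2) := by exact_mod_cast h2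
    have h3' : (JJ *ᵥ ξ) i = v 2 := by exact_mod_cast h3
    rw [h2', h3']
    refine ⟨D ^ 2 * d - k * v 2, ?_⟩
    rw [hd]
    linear_combination -(v 2) * hk

end Pool.Agent.H6.PR
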