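import Pool.Agent.H6.PR.Lam
import Pool.Agent.H62.PR.Lat5

/-!
# Part SELA of project PR (helper62): the 2-Selmer group of a twist
-/

set_option autoImplicit false
set_option linter.all false

open Polynomial IsDedekindDomain WeierstrassCurve WeierstrassCurve.Affine NumberField
open Pool.Agent.TH115.GD
open scoped Classical IntermediateField

namespace Pool.Agent.H6.PR

open Pool.Agent.H62.PR
open Pool.Agent.N874.PP (Tup chA chB gq tau Two Ev Sq1 U0 sW IsBeta Rt)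
open Pool.Agent.N922.PQ

section sela

variable {L : Type} [Field L] [NumberField L] {a b : ℤ} {θ : L} {X : ℕ} {S T : Finset ℤ}
  {s A B : ℤ → ℤ} {𝔮 : ℤ → HeightOneSpectrum (𝓞 L)}

/-- On `Mset` the class is determined by `psi`. -/
theorem psi_eq_iff (d : Dt a b θ X S T s A B 𝔮) {α β : L} (hα : α ∈ Mset a b θ S 𝔮)
    (hβ : β ∈ Mset a b θ S 𝔮) : psi θ S 𝔮 α = psi θ S 𝔮 β ↔ IsSquare (α * β) := by
  have h0 : ∀ l : {Q : ℤ // Q ∈ S} → ZMod 2 × ZMod 2, l + l = 0 := fun l => by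
    funext Q
    exact Prod.ext (CharTwo.add_self_eq_zero _) (CharTwo.add_self_eq_zero _)
  constructor
  · intro h
    apply d.inj _ (mset_mul d hα hβ)
    rw [psi_mul d hα.1 hβ.1, h]
    exact h0 _
  · rintro ⟨r, hr⟩
    have hr0 : r ≠ 0 := by
      rintro rfl
      rw [mul_zero] at hr
      exact mul_ne_zero hα.1 hβ.1 hr
    have h1 := psi_mul d hα.1 hβ.1
    rw [hr, psi_mul d hr0 hr0, h0] at h1
    have h2 : psi θ S 𝔮 α + psi θ S 𝔮 β + psi θ S 𝔮 β = psi θ S 𝔮 β := by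
      rw [← h1, zero_add]
    rwa [add_assoc, h0, add_zero] at h2

theorem eqv_iff (hE : S_EQV) (d : Dt a b θ X S T s A B 𝔮) {D : ℤ} (hD0 : D ≠ 0)
    {f f' : (Sep ℚ ≃ₐ[ℚ] Sep ℚ) →
      Pt (sW (((a * D ^ 2 : ℤ)) : ℚ) (((b * D ^ 3 : ℤ)) : ℚ)) (Sep ℚ)} {α α' : L}
    (hf : SelCoc (sW (((a * D ^ 2 : ℤ)) : ℚ) (((b * D ^ 3 : ℤ)) : ℚ)) f)
    (hf' : SelCoc (sW (((a * D ^ 2 : ℤ)) : ℚ) (((b * D ^ 3 : ℤ)) : ℚ)) f')
    (hα : α ∈ Mset a b θ S 𝔮) (hα' : α' ∈ Mset a b θ S 𝔮) (hr : Rel a b D θ f α)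
    (hr' : Rel a b D θ f' α') :
    (∃ T : Pt (sW (((a * D ^ 2 : ℤ)) : ℚ) (((b * D ^ 3 : ℤ)) : ℚ)) (Sep ℚ), (2 : ℕ) • T = 0 ∧
      ∀ σ, f σ - f' σ = act (sW (((a * D ^ 2 : ℤ)) : ℚ) (((b * D ^ 3 : ℤ)) : ℚ)) (rs ℚ σ) T - T) ↔
      psi θ S 𝔮 α = psi θ S 𝔮 α' := by
  obtain ⟨β, h, hβ, hh, rfl⟩ := hr
  obtain ⟨β', h', hβ', hh', rfl⟩ := hr'
  have htw := IsCub.tw d.hc hD0
  have hdsc : dsc a b ≠ 0 := d.hF.sq.ne_zero
  have h4 : 4 * (((a * D ^ 2 : ℤ)) : ℚ) ^ 3 + 27 * (((b * D ^ 3 : ℤ)) : ℚ) ^ 2 ≠ 0 := by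
    have e : 4 * (((a * D ^ 2 : ℤ)) : ℚ) ^ 3 + 27 * (((b * D ^ 3 : ℤ)) : ℚ) ^ 2 =
        ((D ^ 6 * dsc a b : ℤ) : ℚ) := by
      unfold dsc
      push_cast
      ring
    rw [e]
    exact_mod_cast mul_ne_zero (pow_ne_zero 6 hD0) hdsc
  have hirr : Irreducible (Polynomial.X ^ 3 + C (((a * D ^ 2 : ℤ)) : ℚ) * Polynomial.X +
      C (((b * D ^ 3 : ℤ)) : ℚ) : ℚ[X]) := by
    haveI := htw.fin
    have h1 := minpoly.irreducible (A := ℚ) (Algebra.IsIntegral.isIntegral (R := ℚ) ((D : L) * θ))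
    rw [htw.minpoly_eq] at h1
    exact h1
  have hroot : Rt (((a * D ^ 2 : ℤ)) : ℚ) (((b * D ^ 3 : ℤ)) : ℚ) ((D : L) * θ) := by
    have h1 := htw.root
    unfold Rt
    rw [map_intCast, map_intCast]
    exact h1
  have h1 := hE ℚ (((a * D ^ 2 : ℤ)) : ℚ) (((b * D ^ 3 : ℤ)) : ℚ) (by norm_num) h4 hirr f f' β β'
    h h' hf.coc hf.two hβ hh hf'.coc hf'.two hβ' hh' L ((D : L) * θ) hroot htw.rank
  rw [h1, psi_eq_iff d hα hα']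

theorem sela (hF : S_FWD) (hR : S_REV) (hE : S_EQV) : S_SEL := by
  intro L _ _ a b θ X S T s A B 𝔮 d J D hD
  have hD0 : D ≠ 0 := by
    rw [hD]
    exact Finset.prod_ne_zero_iff.2 fun Q _ => (d.hS Q Q.2).1.1.ne'
  have hFf := hF L a b θ X S T s A B 𝔮 d J D hD
  have hRf := hR L a b θ X S T s A B 𝔮 d J D hD
  choose! α hα hrel hLJ using hFf
  let F : Sel2 (sW (((a * D ^ 2 : ℤ)) : ℚ) (((b * D ^ 3 : ℤ)) : ℚ)) →
      {l : {Q : ℤ // Q ∈ S} → ZMod 2 × ZMod 2 //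
        (∃ α ∈ Mset a b θ S 𝔮, psi θ S 𝔮 α = l) ∧ l ∈ LJ J} :=
    Quotient.lift (fun f => ⟨psi θ S 𝔮 (α f.1), ⟨_, hα f.1 f.2, rfl⟩, hLJ f.1 f.2⟩) (by
      intro f g hfg
      apply Subtype.ext
      exact (eqv_iff hE d hD0 f.2 g.2 (hα _ f.2) (hα _ g.2) (hrel _ f.2) (hrel _ g.2)).1 hfg)
  refine Nat.card_congr (Equiv.ofBijective F ⟨?_, ?_⟩)
  · rintro ⟨f⟩ ⟨g⟩ h
    apply Quotient.sound
    exact (eqv_iff hE d hD0 f.2 g.2 (hα _ f.2) (hα _ g.2) (hrel _ f.2) (hrel _ g.2)).2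
      (congrArg Subtype.val h)
  · rintro ⟨l, ⟨α', hα', rfl⟩, hl⟩
    obtain ⟨f, hf, hrf⟩ := hRf α' hα' hl
    refine ⟨Quotient.mk _ ⟨f, hf⟩, Subtype.ext ?_⟩
    exact (eqv_iff hE d hD0 hf hf (hα _ hf) hα' (hrel _ hf) hrf).1
      ⟨0, smul_zero _, fun σ => by rw [map_zero, sub_self, sub_self]⟩

end sela

end Pool.Agent.H6.PR
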